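import Pool.Agent.MVD.StmtsLoc
import Pool.Agent.Helper65_MVD.FIN

/-! Row NCB of squad MVD: the first small pentagon. -/

set_option autoImplicit false

namespace Pool.Agent.MVD.H55

open Pool.Agent.Helper14_MV Pool.Agent.Helper2_MV

namespace NcbRow

/-! ### the order of first and last occurrences -/

theorem la_nil (a b : ℕ) : ¬ LA a b [] := by
  rintro ⟨A, C, h, _⟩
  exact absurd h.symm (by simp)

theorem la_cons (a b c : ℕ) (l : List ℕ) : LA a b (c :: l) ↔ LA a b l ∨ (c = b ∧ a ∉ l) := by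
  constructor
  · rintro ⟨A, C, h, ha⟩
    cases A with
    | nil =>
      rw [List.nil_append, List.cons.injEq] at h
      exact Or.inr ⟨h.1, by rw [h.2]; exact ha⟩
    | cons x A =>
      rw [List.cons_append, List.cons.injEq] at h
      exact Or.inl ⟨A, C, h.2, ha⟩
  · rintro (⟨A, C, h, ha⟩ | ⟨h, ha⟩)
    · exact ⟨c :: A, C, by rw [h]; rfl, ha⟩
    · exact ⟨[], l, by rw [h]; rfl, ha⟩

instance decLA (a b : ℕ) : (l : List ℕ) → Decidable (LA a b l)
  | [] => isFalse (la_nil a b)
  | c :: l =>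
    haveI := decLA a b l
    decidable_of_iff _ (la_cons a b c l).symm

theorem fa_nil (a b : ℕ) : ¬ FA a b [] := by
  rintro ⟨A, C, h, _⟩
  exact absurd h.symm (by simp)

theorem fa_cons (a b c : ℕ) (l : List ℕ) : FA a b (c :: l) ↔ c = a ∨ (c ≠ b ∧ FA a b l) := by
  constructor
  · rintro ⟨A, C, h, hb⟩
    cases A with
    | nil =>
      rw [List.nil_append, List.cons.injEq] at h
      exact Or.inl h.1
    | cons x A =>
      rw [List.cons_append, List.cons.injEq] at h
      refine Or.inr ⟨?_, A, C, h.2, fun hm => hb (List.mem_cons_of_mem _ hm)⟩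
      intro hcb
      apply hb
      rw [← h.1, hcb]
      exact List.mem_cons_self
  · rintro (h | ⟨h, A, C, hl, hb⟩)
    · exact ⟨[], l, by rw [h]; rfl, List.not_mem_nil⟩
    · refine ⟨c :: A, C, by rw [hl]; rfl, ?_⟩
      intro hm
      rcases List.mem_cons.1 hm with hm | hm
      · exact h hm.symm
      · exact hb hm

instance decFA (a b : ℕ) : (l : List ℕ) → Decidable (FA a b l)
  | [] => isFalse (fa_nil a b)
  | c :: l =>
    haveI := decFA a b l
    decidable_of_iff _ (fa_cons a b c l).symm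

/-! ### the finite sets -/

def KB : List (List ℕ) := [[0,0,3,3,1,0],[0,3,0,3,1,0],[0,3,3,0,1,0],[3,0,0,3,1,0],[3,0,3,0,1,0],
  [3,3,0,0,1,0],[0,3,3,1,0,0],[3,0,3,1,0,0],[3,3,0,1,0,0],[3,3,1,0,0,0]]

def KC : List (List ℕ) := [[0,4,0,0,3,3],[0,4,0,3,0,3],[0,4,0,3,3,0],[0,4,3,0,0,3],[0,4,3,0,3,0],
  [0,4,3,3,0,0],[0,0,4,0,3,3],[0,0,4,3,0,3],[0,0,4,3,3,0],[0,0,0,4,3,3]]

def KA : List (List ℕ) := [[0,0,4,3,3,1,0],[0,4,0,3,3,1,0],[0,4,3,0,3,1,0],[0,4,3,3,0,1,0],
  [0,4,3,3,1,0,0]]

def TB : List (List ℕ) := KB.map (fun K => 1 :: 5 :: (K ++ [2, 8]))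
def TC : List (List ℕ) := KC.map (fun K => 5 :: (K ++ [2, 4, 8]))
def TA : List (List ℕ) := KA.map (fun K => 1 :: 5 :: (K ++ [2, 4, 8]))

/-- the letter is not 4 -/
def n4 (c : ℕ) : Bool := decide (c ≠ 4)
/-- the letter is not 1 -/
def n1 (c : ℕ) : Bool := decide (c ≠ 1)

theorem kb_iff : ∀ K ∈ List.permutations' [0,0,0,3,3,1], LA 3 1 K → LA 1 0 K → K ∈ KB := by
  decide +kernel

theorem kb_perm : ∀ K ∈ KB, K.Perm [0,0,0,3,3,1] ∧ LA 3 1 K ∧ LA 1 0 K := by
  decide +kernel

theorem kb_flt : ∀ K ∈ KB, K.filter (fun c => c == 0 || c == 1 || c == 5) = [1,0,0,0] ∨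
    K.filter (fun c => c == 0 || c == 1 || c == 5) = [0,1,0,0] ∨
    K.filter (fun c => c == 0 || c == 1 || c == 5) = [0,0,1,0] := by
  decide +kernel

theorem kb_not : ∀ K ∈ List.permutations' [0,0,0,3,3,1], ¬ LA 1 0 K →
    K.filter (fun c => c == 0 || c == 1 || c == 5) = [0,0,0,1] := by
  decide +kernel

theorem kc_iff : ∀ K ∈ List.permutations' [0,0,0,3,3,4], FA 0 4 K → ¬ FA 3 4 K → K ∈ KC := by
  decide +kernel

theorem kc_perm : ∀ K ∈ KC, K.Perm [0,0,0,3,3,4] ∧ FA 0 4 K ∧ ¬ FA 3 4 K := by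
  decide +kernel

theorem kc_flt : ∀ K ∈ KC, K.filter (fun c => c == 0 || c == 4 || c == 2) = [0,4,0,0] ∨
    K.filter (fun c => c == 0 || c == 4 || c == 2) = [0,0,4,0] ∨
    K.filter (fun c => c == 0 || c == 4 || c == 2) = [0,0,0,4] := by
  decide +kernel

theorem kc_not : ∀ K ∈ List.permutations' [0,0,0,3,3,4], ¬ FA 0 4 K →
    K.filter (fun c => c == 0 || c == 4 || c == 2) = [4,0,0,0] := by
  decide +kernel

/-! ### words with three blocks -/

theorem rr_trans {β : FIC} {l l' l'' : List ℕ} (h : RR β l l') (h' : RR β l' l'') :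
    RR β l l'' := β.trans h h'

/-- the blocks with the labels 1, 0, 2 -/
def bf (X K Y : List ℕ) (r : ℕ) : List ℕ := if r = 0 then K else if r = 1 then X else Y

theorem bw_bf (X K Y : List ℕ) :
    Bw [1, 0, 2] (bf X K Y) = X ++ 5 :: (K ++ 2 :: (Y ++ [8])) := by
  simp [Bw, bf]

theorem sfr_bf {X K Y : List ℕ} (hX : SFr X) (hK : SFr K) (hY : SFr Y) (r : ℕ) :
    SFr (bf X K Y r) := by
  unfold bf
  split_ifs
  · exact hK
  · exact hX
  · exact hY

theorem sfr_of (l : List ℕ) (h : ∀ c ∈ l, c % 3 ≠ 2) : SFr l := h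

theorem bw_congr {B B' : ℕ → List ℕ} (h1 : B 1 = B' 1) (h0 : B 0 = B' 0) (h2 : B 2 = B' 2) :
    Bw [1, 0, 2] B = Bw [1, 0, 2] B' := by
  simp only [Bw, List.flatMap_cons, List.flatMap_nil, h1, h0, h2]

/-- the shape of equivalent words -/
theorem shape {β : FIC} (sha : ShaStmt) (ty3 : Ty3Stmt) (hc : Hc β) (hcb : ¬ CB β)
    {X K Y : List ℕ} (hX : SFr X) (hK : SFr K) (hY : SFr Y)
    (h0 : K.count 0 = 3 ∧ X.count 0 = 0 ∧ Y.count 0 = 0)
    (hcs : ∀ c, c % 3 ≠ 2 → c ≠ 0 → (c ∉ X ∧ c ∉ K ∧ c ∉ Y) ∨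
      (∃ r s, r ∈ [1, 0, 2] ∧ s ∈ [1, 0, 2] ∧ r ≠ s ∧
        ∀ q ∈ [1, 0, 2], (bf X K Y q).count c = if q = r ∨ q = s then 1 else 0) ∨
      ∃ r ∈ [1, 0, 2], ∀ q ∈ [1, 0, 2], (bf X K Y q).count c = if q = r then 2 else 0)
    {w' : List ℕ} (h : RR β (Bw [1, 0, 2] (bf X K Y)) w') :
    ∃ X' K' Y', w' = Bw [1, 0, 2] (bf X' K' Y') ∧ X'.Perm X ∧ K'.Perm K ∧ Y'.Perm Y := by
  have hnd : [1, 0, 2].Nodup := by decide
  have hsf := sfr_bf hX hK hY
  obtain ⟨B', e, hB', he, hw, habs, htwo, hone⟩ := sha β hc.i2 hc.i3 hc.na [1, 0, 2]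
    (bf X K Y) w' hnd (fun r _ => hsf r) h
  rw [hw] at h
  have hty := ty3 β hc.md hc.i2 hc.i3 hc.s2 hc.zz hcb [1, 0, 2] (bf X K Y) B' e 0 0 hnd
    (fun r _ => hsf r) (fun r _ => hB' r) he h (by norm_num) (by simp) (by
      intro q hq
      simp only [List.mem_cons, List.not_mem_nil, or_false] at hq
      rcases hq with rfl | rfl | rfl
      · simpa [bf] using h0.2.1
      · simpa [bf] using h0.1
      · simpa [bf] using h0.2.2)
  have key : ∀ c, (∀ q ∈ [1, 0, 2], (B' q).count c = (bf X K Y q).count c) ∧ e.count c = 0 := by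
    intro c
    by_cases hc3 : c % 3 = 2
    · have hz : ∀ l : List ℕ, SFr l → l.count c = 0 :=
        fun l hl => List.count_eq_zero.2 (fun hm => hl c hm hc3)
      exact ⟨fun q _ => by rw [hz _ (hB' q), hz _ (hsf q)], hz _ he⟩
    · by_cases hc0 : c = 0
      · subst hc0
        refine ⟨fun q hq => ?_, hty.2⟩
        rw [hty.1 q hq]
        simp only [List.mem_cons, List.not_mem_nil, or_false] at hq
        rcases hq with rfl | rfl | rfl
        · simp [bf, h0.2.1]
        · simp [bf, h0.1]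
        · simp [bf, h0.2.2]
      · rcases hcs c hc3 hc0 with ⟨g1, g2, g3⟩ | ⟨r, s, hr, hs, hrs, hcnt⟩ | ⟨r, hr, hcnt⟩
        · have g : ∀ q ∈ [1, 0, 2], c ∉ bf X K Y q := by
            intro q hq
            simp only [List.mem_cons, List.not_mem_nil, or_false] at hq
            rcases hq with rfl | rfl | rfl
            · simpa [bf] using g1
            · simpa [bf] using g2
            · simpa [bf] using g3
          obtain ⟨k1, k2⟩ := habs c g
          exact ⟨fun q hq => by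
            rw [List.count_eq_zero.2 (k1 q hq), List.count_eq_zero.2 (g q hq)],
            List.count_eq_zero.2 k2⟩
        · obtain ⟨k1, k2⟩ := htwo c r s hc3 hr hs hrs hcnt
          exact ⟨fun q hq => by rw [k1 q hq, hcnt q hq], k2⟩
        · obtain ⟨k1, k2⟩ := hone c r hc3 hr hcnt
          exact ⟨fun q hq => by rw [k1 q hq, hcnt q hq], k2⟩
  have he0 : e = [] := by
    rw [List.eq_nil_iff_forall_not_mem]
    intro c hcm
    exact absurd (List.count_pos_iff.2 hcm) (by rw [(key c).2]; exact lt_irrefl 0)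
  refine ⟨B' 1, B' 0, B' 2, ?_, ?_, ?_, ?_⟩
  · rw [hw, he0, List.append_nil]
    exact bw_congr (by simp [bf]) (by simp [bf]) (by simp [bf])
  · rw [List.perm_iff_count]
    intro c
    simpa [bf] using (key c).1 1 (by simp)
  · rw [List.perm_iff_count]
    intro c
    simpa [bf] using (key c).1 0 (by simp)
  · rw [List.perm_iff_count]
    intro c
    simpa [bf] using (key c).1 2 (by simp)

theorem mem3 {q : ℕ} (h : q ∈ [1, 0, 2]) : q = 1 ∨ q = 0 ∨ q = 2 := by
  simpa using h

/-- `β` keeps the set of the words without `4` -/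
theorem keepTB {β : FIC} (sha : ShaStmt) (ty3 : Ty3Stmt) (rga : RgaStmt) (ctx : CtxStmt)
    (hc : Hc β) (hcb : ¬ CB β) : ∀ u u', RR β u u' → u ∈ TB → u' ∈ TB := by
  intro u u' h hu
  obtain ⟨K, hK, rfl⟩ := List.mem_map.1 hu
  obtain ⟨hKp, hla, hl0⟩ := kb_perm K hK
  have hu1 : (1 :: 5 :: (K ++ [2, 8]) : List ℕ) = Bw [1, 0, 2] (bf [1] K []) := by
    rw [bw_bf]
    simp
  rw [hu1] at h
  have hcnt : ∀ c, K.count c = [0,0,0,3,3,1].count c := fun c => hKp.count_eq c
  have hsK : SFr K := by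
    intro c hcm
    have := hKp.mem_iff.1 hcm
    simp only [List.mem_cons, List.not_mem_nil, or_false] at this
    omega
  obtain ⟨X', K', Y', rfl, hX', hK', hY'⟩ := shape sha ty3 hc hcb (X := [1]) (K := K) (Y := [])
    (by intro c hcm; rw [List.mem_singleton.1 hcm]; norm_num) hsK
    (fun c hcm => absurd hcm List.not_mem_nil) ⟨by rw [hcnt]; rfl, by decide, by decide⟩ (by
      intro c h3 h0
      by_cases hc1 : c = 1
      · subst hc1
        right; left
        refine ⟨1, 0, by simp, by simp, by norm_num, ?_⟩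
        intro q hq
        rcases mem3 hq with rfl | rfl | rfl
        · simp [bf]
        · simp only [bf, if_true, hcnt]
          decide
        · simp [bf]
      · by_cases hc3 : c = 3
        · subst hc3
          right; right
          refine ⟨0, by simp, ?_⟩
          intro q hq
          rcases mem3 hq with rfl | rfl | rfl
          · simp [bf]
          · simp only [bf, if_true, hcnt]
            decide
          · simp [bf]
        · left
          refine ⟨by simpa using hc1, ?_, List.not_mem_nil⟩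
          intro hcm
          have := hKp.mem_iff.1 hcm
          simp only [List.mem_cons, List.not_mem_nil, or_false] at this
          omega) h
  have hX1 : X' = [1] := List.perm_singleton.1 hX'
  have hY1 : Y' = [] := List.perm_nil.1 hY'
  subst hX1
  subst hY1
  have hK1 : K'.Perm [0,0,0,3,3,1] := hK'.trans hKp
  have hcnt' : ∀ c, K'.count c = [0,0,0,3,3,1].count c := fun c => hK1.count_eq c
  have hsK' : SFr K' := fun c hcm => hsK c (hK'.mem_iff.1 hcm)
  have hmem := List.mem_permutations'.2 hK1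
  -- the order of `3` and `1`
  have h31 : LA 3 1 K' := by
    have h5 := rga β hc.s2 hc.na [1, 0, 2] (bf [1] K []) (bf [1] K' []) [] [] (by decide)
      (fun r _ => sfr_bf (by intro c hcm; rw [List.mem_singleton.1 hcm]; norm_num) hsK
        (fun c hcm => absurd hcm List.not_mem_nil) r)
      (fun r _ => sfr_bf (by intro c hcm; rw [List.mem_singleton.1 hcm]; norm_num) hsK'
        (fun c hcm => absurd hcm List.not_mem_nil) r)
      (fun c hcm => absurd hcm List.not_mem_nil) (fun c hcm => absurd hcm List.not_mem_nil)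
      (by rw [List.append_nil, List.append_nil]; exact h) 3 1 0 1 (by norm_num) (by norm_num)
      (by norm_num) ⟨[], [], [2], rfl⟩
      (by
        intro q hq
        rcases mem3 hq with rfl | rfl | rfl
        · simp [bf]
        · simp only [bf, if_true, hcnt]
          decide
        · simp [bf])
      (by
        intro q hq
        rcases mem3 hq with rfl | rfl | rfl
        · simp [bf]
        · simp only [bf, if_true, hcnt']
          decide
        · simp [bf])
      (by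
        intro q hq
        rcases mem3 hq with rfl | rfl | rfl
        · simp [bf]
        · simp only [bf, if_true, hcnt]
          decide
        · simp [bf])
      (by
        intro q hq
        rcases mem3 hq with rfl | rfl | rfl
        · simp [bf]
        · simp only [bf, if_true, hcnt']
          decide
        · simp [bf])
      rfl rfl rfl rfl
    exact h5.1 hla
  -- the order of `1` and `0`
  have h10 : LA 1 0 K' := by
    by_contra hneg
    have e1 := kb_not K' hmem hneg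
    have h6 := h.filter (fun c => c == 0 || c == 1 || c == 5)
    rw [bw_bf, bw_bf] at h6
    have e3 : ∀ L : List ℕ, ([1] ++ 5 :: (L ++ 2 :: ([] ++ [8]))).filter
        (fun c => c == 0 || c == 1 || c == 5) =
        1 :: 5 :: (L.filter (fun c => c == 0 || c == 1 || c == 5)) := by
      intro L
      simp
    rw [e3, e3, e1] at h6
    have s1 : RR β [1, 5, 1, 0, 0, 0] [1, 5, 0, 1, 0, 0] :=
      (ctx β).2.1 hc.s2 [1, 5] [0, 0] 1 0 (by simp) (by simp)
    have s2 : RR β [1, 5, 0, 1, 0, 0] [1, 5, 0, 0, 1, 0] :=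
      (ctx β).2.1 hc.s2 [1, 5, 0] [0] 1 0 (by simp) (by simp)
    have s3 : RR β [1, 5, 1, 0, 0, 0] [1, 5, 0, 0, 0, 1] := by
      rcases kb_flt K hK with e2 | e2 | e2
      · rw [e2] at h6
        exact h6
      · rw [e2] at h6
        exact rr_trans s1 h6
      · rw [e2] at h6
        exact rr_trans s1 (rr_trans s2 h6)
    exact hcb (s3.sub (fun c => if c = 1 then [0] else if c = 5 then [2] else [3]))
  have hKB := kb_iff K' hmem h31 h10
  refine List.mem_map.2 ⟨K', hKB, ?_⟩
  rw [bw_bf]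
  simp

/-- `β` keeps the set of the words without `1` -/
theorem keepTC {β : FIC} (sha : ShaStmt) (ty3 : Ty3Stmt) (rgd : RgdStmt) (ctx : CtxStmt)
    (hc : Hc β) (hcb : ¬ CB β) (hcm : ¬ CB (mir β)) : ∀ u u', RR β u u' → u ∈ TC → u' ∈ TC := by
  intro u u' h hu
  obtain ⟨K, hK, rfl⟩ := List.mem_map.1 hu
  obtain ⟨hKp, hf0, hf3⟩ := kc_perm K hK
  have hu1 : (5 :: (K ++ [2, 4, 8]) : List ℕ) = Bw [1, 0, 2] (bf [] K [4]) := by
    rw [bw_bf]
    simp
  rw [hu1] at h
  have hcnt : ∀ c, K.count c = [0,0,0,3,3,4].count c := fun c => hKp.count_eq c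
  have hsK : SFr K := by
    intro c hcm
    have := hKp.mem_iff.1 hcm
    simp only [List.mem_cons, List.not_mem_nil, or_false] at this
    omega
  have hs4 : SFr [4] := by
    intro c hcm
    rw [List.mem_singleton.1 hcm]
    norm_num
  obtain ⟨X', K', Y', rfl, hX', hK', hY'⟩ := shape sha ty3 hc hcb (X := []) (K := K) (Y := [4])
    (fun c hcm => absurd hcm List.not_mem_nil) hsK hs4 ⟨by rw [hcnt]; rfl, by decide, by decide⟩ (by
      intro c h3 h0
      by_cases hc1 : c = 4
      · subst hc1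
        right; left
        refine ⟨0, 2, by simp, by simp, by norm_num, ?_⟩
        intro q hq
        rcases mem3 hq with rfl | rfl | rfl
        · simp [bf]
        · simp only [bf, if_true, hcnt]
          decide
        · simp [bf]
      · by_cases hc3 : c = 3
        · subst hc3
          right; right
          refine ⟨0, by simp, ?_⟩
          intro q hq
          rcases mem3 hq with rfl | rfl | rfl
          · simp [bf]
          · simp only [bf, if_true, hcnt]
            decide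
          · simp [bf]
        · left
          refine ⟨List.not_mem_nil, ?_, by simpa using hc1⟩
          intro hcm
          have := hKp.mem_iff.1 hcm
          simp only [List.mem_cons, List.not_mem_nil, or_false] at this
          omega) h
  have hX1 : X' = [] := List.perm_nil.1 hX'
  have hY1 : Y' = [4] := List.perm_singleton.1 hY'
  subst hX1
  subst hY1
  have hK1 : K'.Perm [0,0,0,3,3,4] := hK'.trans hKp
  have hcnt' : ∀ c, K'.count c = [0,0,0,3,3,4].count c := fun c => hK1.count_eq c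
  have hsK' : SFr K' := fun c hcm => hsK c (hK'.mem_iff.1 hcm)
  have hmem := List.mem_permutations'.2 hK1
  -- the order of `3` and `4`
  have h34 : ¬ FA 3 4 K' := by
    have h5 := rgd β hc.s2 hc.nad [1, 0, 2] (bf [] K [4]) (bf [] K' [4]) [] [] (by decide)
      (fun r _ => sfr_bf (fun c hcm => absurd hcm List.not_mem_nil) hsK hs4 r)
      (fun r _ => sfr_bf (fun c hcm => absurd hcm List.not_mem_nil) hsK' hs4 r)
      (fun c hcm => absurd hcm List.not_mem_nil) (fun c hcm => absurd hcm List.not_mem_nil)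
      (by rw [List.append_nil, List.append_nil]; exact h) 3 4 0 2 (by norm_num) (by norm_num)
      (by norm_num) ⟨[1], [], [], rfl⟩
      (by
        intro q hq
        rcases mem3 hq with rfl | rfl | rfl
        · simp [bf]
        · simp only [bf, if_true, hcnt]
          decide
        · simp [bf])
      (by
        intro q hq
        rcases mem3 hq with rfl | rfl | rfl
        · simp [bf]
        · simp only [bf, if_true, hcnt']
          decide
        · simp [bf])
      (by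
        intro q hq
        rcases mem3 hq with rfl | rfl | rfl
        · simp [bf]
        · simp only [bf, if_true, hcnt]
          decide
        · simp [bf])
      (by
        intro q hq
        rcases mem3 hq with rfl | rfl | rfl
        · simp [bf]
        · simp only [bf, if_true, hcnt']
          decide
        · simp [bf])
      rfl rfl rfl rfl
    exact fun h7 => hf3 (h5.2 h7)
  -- the order of `0` and `4`
  have h04 : FA 0 4 K' := by
    by_contra hneg
    have e1 := kc_not K' hmem hneg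
    have h6 := h.filter (fun c => c == 0 || c == 4 || c == 2)
    rw [bw_bf, bw_bf] at h6
    have e3 : ∀ L : List ℕ, ([] ++ 5 :: (L ++ 2 :: ([4] ++ [8]))).filter
        (fun c => c == 0 || c == 4 || c == 2) =
        L.filter (fun c => c == 0 || c == 4 || c == 2) ++ [2, 4] := by
      intro L
      simp
    rw [e3, e3, e1] at h6
    have s1 : RR β [0, 0, 4, 0, 2, 4] [0, 4, 0, 0, 2, 4] :=
      (ctx β).2.1 hc.s2 [0] [0, 2, 4] 0 4 (by simp) (by simp)
    have s2 : RR β [0, 0, 0, 4, 2, 4] [0, 0, 4, 0, 2, 4] :=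
      (ctx β).2.1 hc.s2 [0, 0] [2, 4] 0 4 (by simp) (by simp)
    have s3 : RR β [0, 0, 0, 4, 2, 4] [4, 0, 0, 0, 2, 4] := by
      rcases kc_flt K hK with e2 | e2 | e2
      · rw [e2] at h6
        exact rr_trans s2 (rr_trans s1 h6)
      · rw [e2] at h6
        exact rr_trans s2 h6
      · rw [e2] at h6
        exact h6
    exact hcm (s3.sub (fun c => if c = 4 then [0] else if c = 2 then [2] else [3]))
  have hKC := kc_iff K' hmem h04 h34
  refine List.mem_map.2 ⟨K', hKC, ?_⟩
  rw [bw_bf]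
  simp

/-! ### the words of both sets -/

/-- all insertions of a letter -/
def ins (a : ℕ) : List ℕ → List (List ℕ)
  | [] => [[a]]
  | b :: l => (a :: b :: l) :: (ins a l).map (fun m => b :: m)

theorem mem_ins (a : ℕ) (A C : List ℕ) : A ++ a :: C ∈ ins a (A ++ C) := by
  induction A with
  | nil =>
    cases C with
    | nil => simp [ins]
    | cons b l => simp [ins]
  | cons b A ih =>
    show b :: (A ++ a :: C) ∈ (a :: b :: (A ++ C)) :: (ins a (A ++ C)).map (fun m => b :: m)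
    exact List.mem_cons_of_mem _ (List.mem_map.2 ⟨_, ih, rfl⟩)

theorem two_ins (v : List ℕ) (h : v.count 4 = 2) :
    ∃ x, x ∈ ins 4 (v.filter n4) ∧ v ∈ ins 4 x := by
  have h1 : 4 ∈ v := List.count_pos_iff.1 (by omega)
  obtain ⟨A, C, rfl⟩ := List.append_of_mem h1
  rw [List.count_append, List.count_cons_self] at h
  have h2 : (A ++ C).count 4 = 1 := by
    rw [List.count_append]
    omega
  have h3 : 4 ∈ A ++ C := List.count_pos_iff.1 (by omega)
  obtain ⟨A', C', hAC⟩ := List.append_of_mem h3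
  have h4 : (A' ++ C').count 4 = 0 := by
    rw [hAC, List.count_append, List.count_cons_self] at h2
    rw [List.count_append]
    omega
  have h5 : (A ++ 4 :: C).filter n4 = A' ++ C' := by
    have e1 : (A ++ 4 :: C).filter n4 = (A ++ C).filter n4 := by
      rw [List.filter_append, List.filter_append, List.filter_cons_of_neg (by decide)]
    have e2 : (A' ++ 4 :: C').filter n4 = (A' ++ C').filter n4 := by
      rw [List.filter_append, List.filter_append, List.filter_cons_of_neg (by decide)]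
    rw [e1, hAC, e2, List.filter_eq_self]
    intro a ha
    have h6 : a ≠ 4 := by
      rintro rfl
      exact absurd (List.count_pos_iff.2 ha) (by omega)
    simp [n4, h6]
  refine ⟨A ++ C, ?_, mem_ins 4 A C⟩
  rw [h5, hAC]
  exact mem_ins 4 A' C'

theorem ta_chk : ∀ u ∈ TB, ∀ x ∈ ins 4 u, ∀ v ∈ ins 4 x, v.filter n1 ∈ TC → v ∈ TA := by
  decide +kernel

theorem tc_cnt4 : ∀ w ∈ TC, w.count 4 = 2 := by decide +kernel

theorem mem_ta {v : List ℕ} (hB : v.filter n4 ∈ TB) (hC : v.filter n1 ∈ TC) : v ∈ TA := by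
  have h1 : v.count 4 = 2 := by
    have h2 : (v.filter n1).count 4 = v.count 4 := List.count_filter (by decide)
    rw [← h2]
    exact tc_cnt4 _ hC
  obtain ⟨x, hx, hv⟩ := two_ins v h1
  exact ta_chk _ hB x hx v hv hC

/-! ### instances -/

theorem flt (q : ℕ → Bool) (M N l : List ℕ) (φ : ℕ → List ℕ) :
    (M ++ (l.flatMap φ ++ N)).filter q =
      M.filter q ++ (l.flatMap (fun c => (φ c).filter q) ++ N.filter q) := by
  rw [List.filter_append, List.filter_append, List.filter_flatMap]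

theorem chk2 : chkP [4,3,3,2,4] [3,4,3,2,4] TB = true := by decide +kernel
theorem chk2' : chkP [3,4,3,2,4] [4,3,3,2,4] TB = true := by decide +kernel

/-- the exchange of `4` and the first `3` -/
theorem g2 (S : List ℕ) (ψ : ℕ → List ℕ) (M N : List ℕ) :
    M ++ (([1,5,0,4,3,3] ++ (S ++ [4,8])).flatMap ψ ++ N) ∈ TB ↔
      M ++ (([1,5,0,3,4,3] ++ (S ++ [4,8])).flatMap ψ ++ N) ∈ TB := by
  have e1 : M ++ (([1,5,0,4,3,3] ++ (S ++ [4,8])).flatMap ψ ++ N) =
      (M ++ [1,5,0].flatMap ψ) ++ ([4,3,3,2,4].flatMap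
        (fun c => if c = 2 then S.flatMap ψ else ψ c) ++ (ψ 8 ++ N)) := by
    simp [List.append_assoc]
  have e2 : M ++ (([1,5,0,3,4,3] ++ (S ++ [4,8])).flatMap ψ ++ N) =
      (M ++ [1,5,0].flatMap ψ) ++ ([3,4,3,2,4].flatMap
        (fun c => if c = 2 then S.flatMap ψ else ψ c) ++ (ψ 8 ++ N)) := by
    simp [List.append_assoc]
  rw [e1, e2]
  exact ⟨Pool.Agent.MVD.H65.fin _ _ _ (by decide) chk2 _ _ _,
    Pool.Agent.MVD.H65.fin _ _ _ (by decide) chk2' _ _ _⟩

theorem uniq {a : ℕ} : ∀ {Z Z' r t : List ℕ}, a ∉ Z → a ∉ Z' → Z ++ a :: r = Z' ++ a :: t →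
    Z = Z' ∧ r = t := by
  intro Z
  induction Z with
  | nil =>
    intro Z' r t _ h' h
    cases Z' with
    | nil => simpa using h
    | cons z Z' =>
      rw [List.nil_append, List.cons_append, List.cons.injEq] at h
      exact absurd (by rw [h.1]; exact List.mem_cons_self) h'
  | cons z Z ih =>
    intro Z' r t h1 h' h
    cases Z' with
    | nil =>
      rw [List.nil_append, List.cons_append, List.cons.injEq] at h
      exact absurd (by rw [← h.1]; exact List.mem_cons_self) h1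
    | cons z' Z' =>
      rw [List.cons_append, List.cons_append, List.cons.injEq] at h
      obtain ⟨e1, e2⟩ := ih (fun hm => h1 (List.mem_cons_of_mem _ hm))
        (fun hm => h' (List.mem_cons_of_mem _ hm)) h.2
      exact ⟨by rw [h.1, e1], e2⟩

/-- a letter of the image of `0` is `0` -/
theorem x0_eq {w M x1 x5 x0 r : List ℕ} (hw : w = M ++ (x1 ++ (x5 ++ (x0 ++ r))))
    (c3 : ∀ a ∈ w, 3 ≤ w.count a → a = 0) (c0 : w.count 0 = 3)
    (h0 : ∀ a, 2 * x0.count a ≤ r.count a) (hne : x0 ≠ []) :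
    x0 = [0] ∧ 0 ∉ M ++ (x1 ++ x5) := by
  have hcnt : ∀ a, w.count a = M.count a + (x1.count a + (x5.count a + (x0.count a +
      r.count a))) := by
    intro a
    rw [hw]
    simp only [List.count_append]
  have h1 : x0 = List.replicate x0.length 0 := by
    apply List.eq_replicate_of_mem
    intro a ha
    have h2 : 1 ≤ x0.count a := List.count_pos_iff.2 ha
    have h3 := h0 a
    have h4 := hcnt a
    exact c3 a (List.count_pos_iff.1 (by omega)) (by omega)
  have h2 : x0.count 0 = x0.length := by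
    rw [h1]
    simp
  have h3 : 0 < x0.length := List.length_pos_iff.2 hne
  have h4 := h0 0
  have h5 := hcnt 0
  have h6 : x0.length = 1 := by omega
  have h7 : (M ++ (x1 ++ x5)).count 0 = 0 := by
    rw [List.count_append, List.count_append]
    omega
  refine ⟨by rw [h1, h6]; rfl, fun hm => ?_⟩
  have := List.count_pos_iff.2 hm
  omega

theorem tc_c3 : ∀ w ∈ TC, ∀ a ∈ w, 3 ≤ w.count a → a = 0 := by decide +kernel
theorem tc_c0 : ∀ w ∈ TC, w.count 0 = 3 ∧ w.count 5 = 1 ∧ w = [5] ++ 0 :: w.drop 2 := by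
  decide +kernel

theorem g3core {w : List ℕ} (hwT : w ∈ TC) {M x1 x5 x0 r : List ℕ}
    (hw : w = M ++ (x1 ++ (x5 ++ (x0 ++ r)))) (h0 : ∀ a, 2 * x0.count a ≤ r.count a)
    (h1 : ∀ a, x1.count a ≤ r.count a) : x0 = [] ∨ x1 = [] := by
  by_cases hne : x0 = []
  · exact Or.inl hne
  right
  obtain ⟨c0, c5, hform⟩ := tc_c0 w hwT
  obtain ⟨e0, hn⟩ := x0_eq hw (tc_c3 w hwT) c0 h0 hne
  have h2 : (M ++ (x1 ++ x5)) ++ 0 :: r = [5] ++ 0 :: w.drop 2 := by
    rw [← hform, hw, e0]
    simp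
  have h3 := (uniq hn (by decide) h2).1
  rw [List.eq_nil_iff_forall_not_mem]
  intro a ha
  have h4 : a ∈ M ++ (x1 ++ x5) := by simp [ha]
  rw [h3, List.mem_singleton] at h4
  subst h4
  have h5 : 1 ≤ x1.count 5 := List.count_pos_iff.2 ha
  have h6 := h1 5
  have h7 : w.count 5 = M.count 5 + (x1.count 5 + (x5.count 5 + (x0.count 5 + r.count 5))) := by
    rw [hw]
    simp only [List.count_append]
  omega

/-- the exchange of `1` and `0 0` -/
theorem g3 (Y : List ℕ) (ψ : ℕ → List ℕ) (M N : List ℕ) :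
    M ++ (([1,5,0] ++ (Y ++ [1,0,0,2,4,8])).flatMap ψ ++ N) ∈ TC ↔
      M ++ (([1,5,0] ++ (Y ++ [0,0,1,2,4,8])).flatMap ψ ++ N) ∈ TC := by
  have key : ∀ L : List ℕ, (L = [1,0,0] ∨ L = [0,0,1]) →
      M ++ (([1,5,0] ++ (Y ++ (L ++ [2,4,8]))).flatMap ψ ++ N) ∈ TC →
        M ++ (([1,5,0] ++ (Y ++ [1,0,0,2,4,8])).flatMap ψ ++ N) =
          M ++ (([1,5,0] ++ (Y ++ [0,0,1,2,4,8])).flatMap ψ ++ N) := by
    intro L hL hm
    have h := g3core hm (M := M) (x1 := ψ 1) (x5 := ψ 5) (x0 := ψ 0)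
      (r := (Y ++ (L ++ [2,4,8])).flatMap ψ ++ N) (by simp [List.append_assoc]) (by
        intro a
        rcases hL with rfl | rfl <;>
          simp only [List.flatMap_append, List.flatMap_cons, List.flatMap_nil,
            List.count_append] <;> omega) (by
        intro a
        rcases hL with rfl | rfl <;>
          simp only [List.flatMap_append, List.flatMap_cons, List.flatMap_nil,
            List.count_append] <;> omega)
    rcases h with h | h
    · simp [List.append_assoc, h]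
    · simp [List.append_assoc, h]
  constructor
  · intro h
    rw [← key [1,0,0] (Or.inl rfl) h]
    exact h
  · intro h
    rw [key [0,0,1] (Or.inr rfl) h]
    exact h

theorem ta_c3 : ∀ w ∈ TA, ∀ a ∈ w, 3 ≤ w.count a → a = 0 := by decide +kernel
theorem ta_c0 : ∀ w ∈ TA, w.count 0 = 3 ∧ w.count 1 = 2 ∧ w.count 3 = 2 ∧ w.count 4 = 2 ∧
    w.count 5 = 1 ∧ w = [1, 5] ++ 0 :: w.drop 3 := by
  decide +kernel
theorem ta_f : ∀ w ∈ TA, (w.filter (fun c => c == 0 || c == 1) ≠ [1,0,0,0,1]) ∧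
    w.filter (fun c => c != 0) = [1,5,4,3,3,1,2,4,8] := by
  decide +kernel

theorem g1core {w : List ℕ} (hwT : w ∈ TA) {M x1 x5 x0 r : List ℕ}
    (hw : w = M ++ (x1 ++ (x5 ++ (x0 ++ r)))) (h0 : ∀ a, 2 * x0.count a ≤ r.count a)
    (h1 : ∀ a, x1.count a ≤ r.count a) :
    x0 = [] ∨ x1 = [] ∨ (x0 = [0] ∧ x1 = [1] ∧ M = [] ∧ x5 = [5]) := by
  by_cases hne : x0 = []
  · exact Or.inl hne
  right
  by_cases hne1 : x1 = []
  · exact Or.inl hne1
  right
  obtain ⟨c0, c1, c3, c4, c5, hform⟩ := ta_c0 w hwT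
  obtain ⟨e0, hn⟩ := x0_eq hw (ta_c3 w hwT) c0 h0 hne
  have h2 : (M ++ (x1 ++ x5)) ++ 0 :: r = [1, 5] ++ 0 :: w.drop 3 := by
    rw [← hform, hw, e0]
    simp
  have h3 := (uniq hn (by decide) h2).1
  have h7 : ∀ a, w.count a = M.count a + (x1.count a + (x5.count a + (x0.count a +
      r.count a))) := by
    intro a
    rw [hw]
    simp only [List.count_append]
  have h8 : x1 = List.replicate x1.length 1 := by
    apply List.eq_replicate_of_mem
    intro a ha
    have h4 : a ∈ M ++ (x1 ++ x5) := by simp [ha]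
    rw [h3] at h4
    simp only [List.mem_cons, List.not_mem_nil, or_false] at h4
    rcases h4 with h4 | h4
    · exact h4
    · exfalso
      subst h4
      have h5 : 1 ≤ x1.count 5 := List.count_pos_iff.2 ha
      have h6 := h1 5
      have := h7 5
      omega
  have h9 : x1.count 1 = x1.length := by
    rw [h8]
    simp
  have h10 : M.count 1 + (x1.count 1 + x5.count 1) = 1 := by
    have := congrArg (fun l => List.count 1 l) h3
    simp only [List.count_append] at this
    rw [this]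
    decide
  have h11 : 0 < x1.length := List.length_pos_iff.2 hne1
  have h12 : x1.length = 1 := by omega
  have h13 : x1 = [1] := by
    rw [h8, h12]
    rfl
  refine ⟨e0, h13, ?_⟩
  cases M with
  | nil =>
    refine ⟨rfl, ?_⟩
    rw [h13, List.nil_append, List.singleton_append, List.cons.injEq] at h3
    exact h3.2
  | cons m M =>
    exfalso
    rw [List.cons_append, List.cons.injEq] at h3
    rw [h3.1, List.count_cons_self] at h10
    omega

/-- the words of `TA` are not of this form -/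
theorem g1a {y r : List ℕ} (h : [1,5,0] ++ (y ++ (0 :: 0 :: 1 :: r)) ∈ TA) : False := by
  obtain ⟨c0, c1, -⟩ := ta_c0 _ h
  have hf := (ta_f _ h).1
  apply hf
  have e0 : y.count 0 = 0 ∧ r.count 0 = 0 := by
    simp only [List.count_append, List.count_cons, List.count_nil] at c0
    simp at c0
    omega
  have e1 : y.count 1 = 0 ∧ r.count 1 = 0 := by
    simp only [List.count_append, List.count_cons, List.count_nil] at c1
    simp at c1
    omega
  have key : ∀ l : List ℕ, l.count 0 = 0 → l.count 1 = 0 →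
      l.filter (fun c => c == 0 || c == 1) = [] := by
    intro l g0 g1
    rw [List.filter_eq_nil_iff]
    intro a ha
    have ha0 : a ≠ 0 := by
      rintro rfl
      exact absurd (List.count_pos_iff.2 ha) (by omega)
    have ha1 : a ≠ 1 := by
      rintro rfl
      exact absurd (List.count_pos_iff.2 ha) (by omega)
    simp [ha0, ha1]
  rw [List.filter_append, List.filter_append, key y e0.1 e1.1]
  have e2 : (0 :: 0 :: 1 :: r).filter (fun c => c == 0 || c == 1) =
      [0, 0, 1] ++ r.filter (fun c => c == 0 || c == 1) := by simp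
  rw [e2, key r e0.2 e1.2]
  rfl

theorem g1b {x3 x4 r : List ℕ}
    (h : [1,5,0] ++ ((x3 ++ (x4 ++ x3)) ++ (1 :: 0 :: 0 :: r)) ∈ TA)
    (h4 : ∀ a, x4.count a ≤ r.count a) : False := by
  obtain ⟨c0, c1, c3, c4, -⟩ := ta_c0 _ h
  have hf := (ta_f _ h).2
  simp only [List.count_append, List.count_cons, List.count_nil] at c1 c3 c4
  simp at c1 c3 c4
  have e1 : (x3 ++ (x4 ++ x3)).count 1 = 0 := by
    simp only [List.count_append]
    omega
  have hfe : ([1,5,0] ++ ((x3 ++ (x4 ++ x3)) ++ (1 :: 0 :: 0 :: r))).filter (fun c => c != 0) =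
      [1, 5] ++ ((x3 ++ (x4 ++ x3)).filter (fun c => c != 0) ++
        1 :: r.filter (fun c => c != 0)) := by
    simp
  rw [hfe] at hf
  have hf2 : (x3 ++ (x4 ++ x3)).filter (fun c => c != 0) ++ 1 :: r.filter (fun c => c != 0) =
      [4,3,3] ++ 1 :: [2,4,8] := by
    have := List.append_cancel_left (as := [1, 5]) (bs := (x3 ++ (x4 ++ x3)).filter
      (fun c => c != 0) ++ 1 :: r.filter (fun c => c != 0)) (cs := [4,3,3] ++ 1 :: [2,4,8]) (by
        rw [hf]
        rfl)
    exact this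
  have hn1 : 1 ∉ (x3 ++ (x4 ++ x3)).filter (fun c => c != 0) := by
    intro hm
    have h5 := (List.mem_filter.1 hm).1
    exact absurd (List.count_pos_iff.2 h5) (by omega)
  have hy := (uniq hn1 (by decide) hf2).1
  have hcy : ∀ a, a ≠ 0 → (x3 ++ (x4 ++ x3)).count a = [4,3,3].count a := by
    intro a ha
    rw [← hy]
    exact (List.count_filter (by simp [ha])).symm
  have k3 := hcy 3 (by norm_num)
  have k4 := hcy 4 (by norm_num)
  have e3 : ([4,3,3] : List ℕ).count 3 = 2 := by decide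
  have e4 : ([4,3,3] : List ℕ).count 4 = 1 := by decide
  rw [e3] at k3
  rw [e4] at k4
  simp only [List.count_append] at k3 k4
  have l3 := h4 3
  have l4 := h4 4
  have m3 : x3.count 3 = 1 := by omega
  have m4 : x3.count 4 = 0 := by omega
  rw [List.filter_append] at hy
  cases hx : x3.filter (fun c => c != 0) with
  | nil =>
    have h5 : (x3.filter (fun c => c != 0)).count 3 = x3.count 3 :=
      List.count_filter (by decide)
    rw [hx, m3] at h5
    simp at h5
  | cons b l =>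
    rw [hx, List.cons_append, List.cons.injEq] at hy
    have h5 : 4 ∈ x3.filter (fun c => c != 0) := by
      rw [hx, hy.1]
      exact List.mem_cons_self
    have h6 := (List.mem_filter.1 h5).1
    exact absurd (List.count_pos_iff.2 h6) (by omega)

/-- the exchange of `1` and `0 0` in the words of `TA` -/
theorem g1 (φ : ℕ → List ℕ) (M N : List ℕ) :
    M ++ ([1,5,0,3,4,3,1,0,0,2,4,8].flatMap φ ++ N) ∈ TA ∨
      M ++ ([1,5,0,3,4,3,0,0,1,2,4,8].flatMap φ ++ N) ∈ TA →
        M ++ ([1,5,0,3,4,3,1,0,0,2,4,8].flatMap φ ++ N) =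
          M ++ ([1,5,0,3,4,3,0,0,1,2,4,8].flatMap φ ++ N) := by
  have fin : (φ 0 = [] ∨ φ 1 = []) → M ++ ([1,5,0,3,4,3,1,0,0,2,4,8].flatMap φ ++ N) =
          M ++ ([1,5,0,3,4,3,0,0,1,2,4,8].flatMap φ ++ N) := by
    rintro (h | h)
    · simp [List.append_assoc, h]
    · simp [List.append_assoc, h]
  rintro (hm | hm)
  · have h := g1core hm (M := M) (x1 := φ 1) (x5 := φ 5) (x0 := φ 0)
      (r := [3,4,3,1,0,0,2,4,8].flatMap φ ++ N) (by simp [List.append_assoc]) (by
        intro a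
        simp only [List.flatMap_cons, List.flatMap_nil, List.count_append]
        omega) (by
        intro a
        simp only [List.flatMap_cons, List.flatMap_nil, List.count_append]
        omega)
    rcases h with h | h | ⟨h0, h1, hM, h5⟩
    · exact fin (Or.inl h)
    · exact fin (Or.inr h)
    · exfalso
      refine g1b (x3 := φ 3) (x4 := φ 4) (r := φ 2 ++ (φ 4 ++ (φ 8 ++ N))) ?_ ?_
      · have e : M ++ ([1,5,0,3,4,3,1,0,0,2,4,8].flatMap φ ++ N) =
            [1,5,0] ++ ((φ 3 ++ (φ 4 ++ φ 3)) ++ (1 :: 0 :: 0 :: (φ 2 ++ (φ 4 ++ (φ 8 ++ N))))) := by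
          simp [List.append_assoc, h0, h1, hM, h5]
        rw [← e]
        exact hm
      · intro a
        simp only [List.count_append]
        omega
  · have h := g1core hm (M := M) (x1 := φ 1) (x5 := φ 5) (x0 := φ 0)
      (r := [3,4,3,0,0,1,2,4,8].flatMap φ ++ N) (by simp [List.append_assoc]) (by
        intro a
        simp only [List.flatMap_cons, List.flatMap_nil, List.count_append]
        omega) (by
        intro a
        simp only [List.flatMap_cons, List.flatMap_nil, List.count_append]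
        omega)
    rcases h with h | h | ⟨h0, h1, hM, h5⟩
    · exact fin (Or.inl h)
    · exact fin (Or.inr h)
    · exfalso
      refine g1a (y := φ 3 ++ (φ 4 ++ φ 3)) (r := φ 2 ++ (φ 4 ++ (φ 8 ++ N))) ?_
      have e : M ++ ([1,5,0,3,4,3,0,0,1,2,4,8].flatMap φ ++ N) =
          [1,5,0] ++ ((φ 3 ++ (φ 4 ++ φ 3)) ++ (0 :: 0 :: 1 :: (φ 2 ++ (φ 4 ++ (φ 8 ++ N))))) := by
        simp [List.append_assoc, h0, h1, hM, h5]
      rw [← e]
      exact hm

end NcbRow

open NcbRow

/-- **NCB** -/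
theorem ncb (pen : PenStmt) (gen : GenStmt) (sha : ShaStmt) (ty3 : Ty3Stmt) (rga : RgaStmt)
    (rgd : RgdStmt) (ctx : CtxStmt) (_fac : FacStmt) : NcbStmt := by
  intro β hc
  by_contra hcon
  rw [not_or] at hcon
  obtain ⟨hcb, hcm⟩ := hcon
  have kB := keepTB sha ty3 rga ctx hc hcb
  have kC := keepTC sha ty3 rgd ctx hc hcb hcm
  have kB' : ∀ w w', RR β w w' → w.filter n4 ∈ TB → w'.filter n4 ∈ TB :=
    fun w w' h hw => kB _ _ (h.filter n4) hw
  have kC' : ∀ w w', RR β w w' → w.filter n1 ∈ TC → w'.filter n1 ∈ TC :=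
    fun w w' h hw => kC _ _ (h.filter n1) hw
  obtain ⟨ρ, hβρ, hGρ, hminρ, hkρ⟩ := gen β (fun e =>
    e = ([1,5,0,3,4,3,1,0,0,2,4,8], [1,5,0,3,4,3,0,0,1,2,4,8]))
  obtain ⟨σ, hβσ, hGσ, _, hkσ⟩ := gen β (fun e =>
    e = ([1,5,0,4,3,3,1,0,0,2,4,8], [1,5,0,3,4,3,1,0,0,2,4,8]) ∨
    e = ([1,5,0,4,3,3,0,0,1,2,4,8], [1,5,0,3,4,3,0,0,1,2,4,8]))
  obtain ⟨τ, hβτ, hGτ, _, hkτ⟩ := gen β (fun e =>
    e = ([1,5,0,3,4,3,1,0,0,2,4,8], [1,5,0,3,4,3,0,0,1,2,4,8]) ∨
    e = ([1,5,0,4,3,3,1,0,0,2,4,8], [1,5,0,4,3,3,0,0,1,2,4,8]))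
  have eρ : RR ρ [1,5,0,3,4,3,1,0,0,2,4,8] [1,5,0,3,4,3,0,0,1,2,4,8] := hGρ _ rfl
  have eσ : RR σ [1,5,0,4,3,3,1,0,0,2,4,8] [1,5,0,3,4,3,1,0,0,2,4,8] := hGσ _ (Or.inl rfl)
  have eσ' : RR σ [1,5,0,4,3,3,0,0,1,2,4,8] [1,5,0,3,4,3,0,0,1,2,4,8] := hGσ _ (Or.inr rfl)
  have eτ : RR τ [1,5,0,3,4,3,1,0,0,2,4,8] [1,5,0,3,4,3,0,0,1,2,4,8] := hGτ _ (Or.inl rfl)
  have eτ' : RR τ [1,5,0,4,3,3,1,0,0,2,4,8] [1,5,0,4,3,3,0,0,1,2,4,8] := hGτ _ (Or.inr rfl)
  have hρτ : ρ ≤ τ := by
    apply hminρ τ hβτ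
    rintro e rfl
    exact eτ
  have keepA := hkρ (fun w => w.filter n4 ∈ TB ∧ w.filter n1 ∈ TC)
    (fun w w' h hw => ⟨kB' w w' h hw.1, kC' w w' h hw.2⟩)
    (by
      rintro e rfl φ M N
      constructor
      · intro h
        have h1 := g1 φ M N (Or.inl (mem_ta h.1 h.2))
        show (M ++ ([1,5,0,3,4,3,0,0,1,2,4,8].flatMap φ ++ N)).filter n4 ∈ TB ∧
          (M ++ ([1,5,0,3,4,3,0,0,1,2,4,8].flatMap φ ++ N)).filter n1 ∈ TC
        rw [← h1]
        exact h
      · intro h
        have h1 := g1 φ M N (Or.inr (mem_ta h.1 h.2))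
        show (M ++ ([1,5,0,3,4,3,1,0,0,2,4,8].flatMap φ ++ N)).filter n4 ∈ TB ∧
          (M ++ ([1,5,0,3,4,3,1,0,0,2,4,8].flatMap φ ++ N)).filter n1 ∈ TC
        rw [h1]
        exact h)
  have keepB := hkσ (fun w => w.filter n4 ∈ TB) kB'
    (by
      rintro e (rfl | rfl) φ M N
      · show (M ++ ([1,5,0,4,3,3,1,0,0,2,4,8].flatMap φ ++ N)).filter n4 ∈ TB ↔
          (M ++ ([1,5,0,3,4,3,1,0,0,2,4,8].flatMap φ ++ N)).filter n4 ∈ TB
        rw [flt, flt]
        exact g2 [1,0,0,2] _ _ _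
      · show (M ++ ([1,5,0,4,3,3,0,0,1,2,4,8].flatMap φ ++ N)).filter n4 ∈ TB ↔
          (M ++ ([1,5,0,3,4,3,0,0,1,2,4,8].flatMap φ ++ N)).filter n4 ∈ TB
        rw [flt, flt]
        exact g2 [0,0,1,2] _ _ _)
  have keepC := hkτ (fun w => w.filter n1 ∈ TC) kC'
    (by
      rintro e (rfl | rfl) φ M N
      · show (M ++ ([1,5,0,3,4,3,1,0,0,2,4,8].flatMap φ ++ N)).filter n1 ∈ TC ↔
          (M ++ ([1,5,0,3,4,3,0,0,1,2,4,8].flatMap φ ++ N)).filter n1 ∈ TC
        rw [flt, flt]
        exact g3 [3,4,3] _ _ _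
      · show (M ++ ([1,5,0,4,3,3,1,0,0,2,4,8].flatMap φ ++ N)).filter n1 ∈ TC ↔
          (M ++ ([1,5,0,4,3,3,0,0,1,2,4,8].flatMap φ ++ N)).filter n1 ∈ TC
        rw [flt, flt]
        exact g3 [4,3,3] _ _ _)
  refine pen β hc.md ρ σ τ (fun w => w.filter n4 ∈ TB ∧ w.filter n1 ∈ TC)
    (fun w => w.filter n4 ∈ TB) (fun w => w.filter n1 ∈ TC) hβρ hβσ hβτ hρτ keepA keepB keepC
    (fun w h => h) (fun w h h' => ⟨h, h'⟩)
    [1,5,0,4,3,3,1,0,0,2,4,8] [1,5,0,4,3,3,0,0,1,2,4,8] (by decide) (by decide) eτ' ?_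
  have l1 := FIC.le_sup_right ρ σ
  have l2 := FIC.le_sup_left ρ σ
  have c1 : RR (FIC.sup ρ σ) [1,5,0,4,3,3,1,0,0,2,4,8] [1,5,0,3,4,3,1,0,0,2,4,8] := l1 _ _ eσ
  have c2 : RR (FIC.sup ρ σ) [1,5,0,3,4,3,1,0,0,2,4,8] [1,5,0,3,4,3,0,0,1,2,4,8] := l2 _ _ eρ
  have c3 : RR (FIC.sup ρ σ) [1,5,0,3,4,3,0,0,1,2,4,8] [1,5,0,4,3,3,0,0,1,2,4,8] :=
    l1 _ _ eσ'.symm
  exact rr_trans c1 (rr_trans c2 c3)

end Pool.Agent.MVD.H55
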