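import Pool.Agent.MVD.StmtsLoc

/-! Row GRD of squad MVD: arrangements of a canonical word which is not free. -/

set_option autoImplicit false

namespace Pool.Agent.MVD.H55

open Pool.Agent.Helper14_MV Pool.Agent.Helper2_MV

theorem rr_cast {β : FIC} {l l' m m' : List ℕ} (h : RR β l l') (e : l = m) (e' : l' = m') :
    RR β m m' := by
  rw [← e, ← e']
  exact h

theorem rr_trans {β : FIC} {l l' l'' : List ℕ} (h : RR β l l') (h' : RR β l' l'') :
    RR β l l'' := β.trans h h'

/-- the part of the word in front of the main block -/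
def preW (P : List ℕ) : List ℕ := P.flatMap (fun i => [3 * i + 1, 3 * (i + 1) + 2])

/-- the part of the word behind the main block -/
def sufW (Q : List ℕ) : List ℕ := 2 :: Q.flatMap (fun i => [3 * i + 1, 3 * (i + 1) + 2])

theorem wm_eq (P Q L : List ℕ) : Wm P Q L = preW P ++ (L ++ sufW Q) := by
  unfold Wm Bw preW sufW
  rw [List.flatMap_append, List.flatMap_cons, List.flatMap_map, List.flatMap_map]
  simp

theorem mem_preW {P : List ℕ} {i : ℕ} (h : i ∈ P) : 3 * i + 1 ∈ preW P :=
  List.mem_flatMap.2 ⟨i, h, by simp⟩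

theorem mem_sufW {Q : List ℕ} {i : ℕ} (h : i ∈ Q) : 3 * i + 1 ∈ sufW Q :=
  List.mem_cons_of_mem _ (List.mem_flatMap.2 ⟨i, h, by simp⟩)

/-- `CB` in all contexts -/
theorem cb_ctx {β : FIC} (h : CB β) (p q : List ℕ) (x y : ℕ) (hx : x ∈ p) :
    RR β (p ++ x :: y :: y :: y :: q) (p ++ y :: y :: y :: x :: q) := by
  obtain ⟨p1, p2, rfl⟩ := List.append_of_mem hx
  have h1 := h.sub (fun c => if c = 0 then [x] else if c = 3 then [y] else p2)
  have h2 := ((RR.refl (β := β) p1).append h1).append (RR.refl q)
  refine rr_cast h2 ?_ ?_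
  · simp
  · simp

/-- `S2` in all contexts -/
theorem s2_ctx (ctx : CtxStmt) {β : FIC} (h : S2 β) (p q : List ℕ) (u v : ℕ) (hu : u ∈ p)
    (hv : v ∈ q) : RR β (p ++ u :: v :: q) (p ++ v :: u :: q) := (ctx β).2.1 h p q u v hu hv

theorem grd (irl : IrlStmt) (ctx : CtxStmt) : GrdStmt := by
  intro β n P Q γ hNF γ' hperm hrel
  have hc := hNF.hc
  have hcan := hNF.can
  -- insertion in the main block
  have ins : ∀ U V : List ℕ, RR β (Wm P Q (U ++ (γ ++ V))) (Wm P Q (U ++ (γ' ++ V))) := by
    intro U V
    have hnd : (P.map (fun e => e + 1) ++ 0 :: Q.map (fun e => e + 1)).Nodup := by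
      have hinj : Function.Injective (fun e : ℕ => e + 1) := fun a b h => by
        have h' : a + 1 = b + 1 := h
        omega
      have h1 : (P.map (fun e => e + 1) ++ Q.map (fun e => e + 1)).Nodup := by
        rw [← List.map_append]
        exact (List.nodup_map_iff hinj).2 hcan.nd
      have h2 : (0 :: (P.map (fun e => e + 1) ++ Q.map (fun e => e + 1))).Nodup := by
        rw [List.nodup_cons]
        refine ⟨fun hm => ?_, h1⟩
        rw [← List.map_append, List.mem_map] at hm
        obtain ⟨a, _, ha⟩ := hm
        omega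
      exact (List.perm_middle.nodup_iff).2 h2
    have hB : ∀ L : List ℕ, SFr L → ∀ r ∈ (P.map (fun e => e + 1) ++ 0 ::
        Q.map (fun e => e + 1)), SFr (if r = 0 then L else [3 * (r - 1) + 1]) := by
      intro L hL r _
      by_cases hr : r = 0
      · rw [if_pos hr]
        exact hL
      · rw [if_neg hr]
        intro c hcm
        rw [List.mem_singleton.1 hcm]
        omega
    have h3 := irl β (P.map (fun e => e + 1) ++ 0 :: Q.map (fun e => e + 1))
      (fun r => if r = 0 then γ else [3 * (r - 1) + 1])
      (fun r => if r = 0 then γ' else [3 * (r - 1) + 1])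
      (fun r => if r = 0 then U else []) (fun r => if r = 0 then V else []) [] [] [] [] hnd
      (hB γ hcan.sf) (hB γ' (fun a ha => hcan.sf a (hperm.mem_iff.1 ha)))
      (fun c hcm => absurd hcm List.not_mem_nil) (fun c hcm => absurd hcm List.not_mem_nil) (by
        rw [List.append_nil, List.append_nil]
        exact hrel)
    refine rr_cast h3 ?_ ?_
    · unfold Wm
      simp only [List.append_nil]
      congr 1
      funext r
      by_cases hr : r = 0
      · simp [hr]
      · simp [hr]
    · unfold Wm
      simp only [List.append_nil]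
      congr 1
      funext r
      by_cases hr : r = 0
      · simp [hr]
      · simp [hr]
  -- it suffices to free `γ'`
  have hfree : ¬ RR β (preW P ++ 0 :: (γ' ++ 0 :: 0 :: sufW Q))
      (preW P ++ 0 :: 0 :: 0 :: (γ' ++ sufW Q)) := by
    intro h
    apply hNF.nf
    have h1 := ins [0] [0, 0]
    have h2 := ins [0, 0, 0] []
    have h3 : RR β (Wm P Q ([0] ++ (γ' ++ [0, 0]))) (Wm P Q ([0, 0, 0] ++ (γ' ++ []))) := by
      refine rr_cast h ?_ ?_
      · rw [wm_eq]
        simp
      · rw [wm_eq]
        simp
    have h4 := rr_trans h1 (rr_trans h3 h2.symm)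
    simpa using h4
  -- letters
  have h0 : 0 ∉ γ' := by
    intro h
    have h1 := (hcan.lc 0 (hperm.mem_iff.1 h) rfl).2
    omega
  have hm : ∀ a ∈ γ', 2 ≤ (preW P).count a + γ'.count a + (sufW Q).count a := by
    intro a ha
    have ha' := hperm.mem_iff.1 ha
    have hcnt : γ'.count a = γ.count a := hperm.count_eq a
    have h2 := hcan.sf a ha'
    have h3 : a % 3 = 0 ∨ a % 3 = 1 := by omega
    rcases h3 with h3 | h3
    · have := (hcan.lc a ha' h3).1
      omega
    · obtain ⟨i, hi, rfl⟩ := hcan.ps a ha' h3
      have h4 := hcan.pl i hi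
      rcases List.mem_append.1 hi with hi | hi
      · have : 1 ≤ (preW P).count (3 * i + 1) := List.count_pos_iff.2 (mem_preW hi)
        omega
      · have : 1 ≤ (sufW Q).count (3 * i + 1) := List.count_pos_iff.2 (mem_sufW hi)
        omega
  have hlen : γ'.length ≤ n + 1 := by
    rw [hperm.length_eq]
    exact hNF.len
  have hkind : ∀ v ∈ γ', (∃ i ∈ P, v = 3 * i + 1) ∨ (∃ i ∈ Q, v = 3 * i + 1) ∨
      γ'.count v = 2 := by
    intro a ha
    have ha' := hperm.mem_iff.1 ha
    have h2 := hcan.sf a ha'
    have h3 : a % 3 = 0 ∨ a % 3 = 1 := by omega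
    rcases h3 with h3 | h3
    · right; right
      rw [hperm.count_eq]
      exact (hcan.lc a ha' h3).1
    · obtain ⟨i, hi, rfl⟩ := hcan.ps a ha' h3
      rcases List.mem_append.1 hi with hi | hi
      · exact Or.inl ⟨i, hi, rfl⟩
      · exact Or.inr (Or.inl ⟨i, hi, rfl⟩)
  have hne : γ' ≠ [] := by
    intro h
    apply hfree
    rw [h]
    exact RR.refl _
  constructor
  · -- the first letter
    obtain ⟨v, γ'', rfl⟩ := List.exists_cons_of_ne_nil hne
    have hlen' : γ''.length ≤ n := by
      have := hlen
      rw [List.length_cons] at this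
      omega
    have h0v : 0 ∉ γ'' := fun h => h0 (List.mem_cons_of_mem _ h)
    have hgf : RR β ((preW P ++ [v]) ++ 0 :: (γ'' ++ 0 :: 0 :: sufW Q))
        ((preW P ++ [v]) ++ 0 :: 0 :: 0 :: (γ'' ++ sufW Q)) := by
      apply hNF.gf _ _ _ _ hlen' h0v
      intro a ha
      have h1 := hm a (List.mem_cons_of_mem _ ha)
      have h2 : (preW P).count a + (v :: γ'').count a + (sufW Q).count a ≤
          ((preW P ++ [v]) ++ 0 :: (γ'' ++ 0 :: 0 :: sufW Q)).count a := by
        simp only [List.count_append, List.count_cons, List.count_nil]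
        omega
      omega
    rcases hkind v List.mem_cons_self with ⟨i, hi, rfl⟩ | ⟨i, hi, rfl⟩ | hv2
    · -- L-passive
      exfalso
      apply hfree
      have hvp := mem_preW hi
      have s1 := s2_ctx ctx hc.s2 (preW P) (γ'' ++ 0 :: 0 :: sufW Q) (3 * i + 1) 0 hvp (by simp)
      have s3 := cb_ctx hNF.cb (preW P) (γ'' ++ sufW Q) (3 * i + 1) 0 hvp
      simp only [List.append_assoc, List.cons_append, List.nil_append] at s1 s3 hgf ⊢
      exact rr_trans s1.symm (rr_trans hgf s3)
    · exact ⟨i, hi, γ'', rfl⟩
    · -- local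
      exfalso
      apply hfree
      have hvm : v ∈ γ'' := by
        rw [List.count_cons_self] at hv2
        exact List.count_pos_iff.1 (by omega)
      obtain ⟨d1, d2, rfl⟩ := List.append_of_mem hvm
      have s1 := hc.ff (preW P) d1 d2 (0 :: sufW Q) v 0 (by
        intro a ha
        have h1 := hm a (by simp [ha])
        have h2 : (preW P).count a + (v :: (d1 ++ v :: d2)).count a + (sufW Q).count a ≤
            (preW P ++ v :: 0 :: (d1 ++ v :: (d2 ++ 0 :: 0 :: sufW Q))).count a := by
          simp only [List.count_append, List.count_cons]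
          omega
        omega)
      have s3 := hc.ff (preW P) [] (0 :: d1) (d2 ++ sufW Q) 0 v (by
        intro a ha
        rcases List.mem_cons.1 ha with rfl | ha
        · simp only [List.nil_append, List.count_append, List.count_cons]
          simp
          omega
        · have h1 := hm a (by simp [ha])
          have h2 : (preW P).count a + (v :: (d1 ++ v :: d2)).count a + (sufW Q).count a ≤
              (preW P ++ 0 :: v :: ([] ++ 0 :: ((0 :: d1) ++ v :: (d2 ++ sufW Q)))).count a := by
            simp only [List.nil_append, List.cons_append, List.count_append, List.count_cons]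
            omega
          omega)
      have s4 := s2_ctx ctx hc.s2 (preW P ++ [0]) (0 :: (d1 ++ v :: (d2 ++ sufW Q))) 0 v
        (by simp) (by simp)
      have s5 := s2_ctx ctx hc.s2 (preW P ++ [0, 0]) (d1 ++ v :: (d2 ++ sufW Q)) 0 v
        (by simp) (by simp)
      simp only [List.append_assoc, List.cons_append, List.nil_append] at s1 s3 s4 s5 hgf ⊢
      exact rr_trans s1.symm (rr_trans hgf (rr_trans s3.symm (rr_trans s4.symm s5.symm)))
  · -- the last letter
    obtain ⟨γ'', v, rfl⟩ : ∃ l v, γ' = l ++ [v] :=
      ⟨γ'.dropLast, γ'.getLast hne, (List.dropLast_append_getLast hne).symm⟩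
    have hlen' : γ''.length ≤ n := by
      have := hlen
      rw [List.length_append, List.length_singleton] at this
      omega
    have h0v : 0 ∉ γ'' := fun h => h0 (List.mem_append_left _ h)
    have hgf : RR β (preW P ++ 0 :: (γ'' ++ 0 :: 0 :: v :: sufW Q))
        (preW P ++ 0 :: 0 :: 0 :: (γ'' ++ v :: sufW Q)) := by
      apply hNF.gf _ _ _ _ hlen' h0v
      intro a ha
      have h1 := hm a (List.mem_append_left _ ha)
      have h2 : (preW P).count a + (γ'' ++ [v]).count a + (sufW Q).count a ≤
          (preW P ++ 0 :: (γ'' ++ 0 :: 0 :: v :: sufW Q)).count a := by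
        simp only [List.count_append, List.count_cons, List.count_nil]
        omega
      omega
    rcases hkind v (by simp) with ⟨i, hi, rfl⟩ | ⟨i, hi, rfl⟩ | hv2
    · exact ⟨i, hi, γ'', rfl⟩
    · -- F-passive
      exfalso
      apply hfree
      have hvs := mem_sufW hi
      have s1 := s2_ctx ctx hc.s2 (preW P ++ 0 :: γ'') (0 :: sufW Q) 0 (3 * i + 1) (by simp)
        (List.mem_cons_of_mem _ hvs)
      have s3 := s2_ctx ctx hc.s2 (preW P ++ 0 :: (γ'' ++ [0])) (sufW Q) 0 (3 * i + 1) (by simp)
        hvs
      simp only [List.append_assoc, List.cons_append, List.nil_append] at s1 s3 hgf ⊢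
      exact rr_trans s1.symm (rr_trans s3.symm hgf)
    · -- local
      exfalso
      apply hfree
      have hvm : v ∈ γ'' := by
        rw [List.count_append, List.count_singleton_self] at hv2
        exact List.count_pos_iff.1 (by omega)
      obtain ⟨d1, d2, rfl⟩ := List.append_of_mem hvm
      have s1 := s2_ctx ctx hc.s2 (preW P ++ 0 :: (d1 ++ v :: d2)) (0 :: sufW Q) v 0 (by simp)
        (by simp)
      have s3 := hc.zz (preW P ++ 0 :: d1) [] d2 (sufW Q) v 0 (by
        intro a ha
        have h1 := hm a (by simp [ha])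
        have h2 : (preW P).count a + ((d1 ++ v :: d2) ++ [v]).count a + (sufW Q).count a ≤
            ((preW P ++ 0 :: d1) ++ v :: (d2 ++ 0 :: ([] ++ v :: 0 :: sufW Q))).count a := by
          simp only [List.nil_append, List.count_append, List.count_cons, List.count_nil]
          omega
        omega)
      simp only [List.append_assoc, List.cons_append, List.nil_append] at s1 s3 hgf ⊢
      exact rr_trans s1 (rr_trans s3 hgf)

end Pool.Agent.MVD.H55
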